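import Pool.Agent.H64.EP.Main
import Pool.Agent.H64.EP.Num
import Pool.Agent.H64.EP.Fin
import Pool.Agent.H64.EP.UB
import Pool.Agent.H58.EP.BES
import Pool.Agent.H58.EP.K1
import Pool.Agent.H58.EP.K2
import Pool.Agent.H12.EP.K3
import Pool.Agent.H12.EP.HOL
import Pool.Agent.H59.EP.TF
import Pool.Agent.H14.EP.CNT
import Pool.Agent.H14.EP.COV
import Pool.Agent.H56.EP.MAC
import Pool.Agent.H51.EP.GRE
import Pool.Agent.H50.EP.PAIR
import Pool.Agent.H48.EP.EXF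
import Pool.Agent.H33.EP.GI
import Pool.Agent.H33.EP.KER
import Pool.Agent.H33.EP.TAIL
import Pool.Agent.H91.EP.HEA
import Pool.Agent.H91.EP.HEB
import Pool.Agent.H6.EP.KK

/-!
# Triangle-free graphs without linear-by-polynomial empty pairs

For every `c > 0` there are triangle-free graphs on `n` vertices, `n` arbitrarily large, in which
any two sets of at least `c n` and at least `n ^ c` vertices are joined by an edge.
-/

set_option autoImplicit false

namespace Pool.Agent.Results.MP_e01ba1_co.NoEmptyPairs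

open Pool.Agent.H64.EP

theorem t_main : T_MAIN :=
  have hGI : T_GI := Pool.Agent.H33.EP.GI.pf_GI Pool.Agent.H50.EP.PAIR.pf_PAIR
  have hK3 : T_K3 := Pool.Agent.H12.EP.K3.pf_K3 hGI Pool.Agent.H56.EP.MAC.pf_MAC
  have hK1 : T_K1 := pf_K1 pf_BES
  have hHEA : T_HEA := Pool.Agent.H91.EP.HEA.pf_HEA hK1
  have hHEB : T_HEB := Pool.Agent.H91.EP.HEB.pf_HEB pf_K2 hK3 Pool.Agent.H12.EP.HOL.pf_HOL
  have hKER : T_KER := Pool.Agent.H33.EP.KER.pf_KER Pool.Agent.H14.EP.CNT.pf_CNT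
  have hCOV : T_COV := Pool.Agent.H14.EP.COV.pf_COV hGI Pool.Agent.H33.EP.TAIL.pf_TAIL hKER
    hHEA hHEB Pool.Agent.H6.EP.KK.pf_KK Pool.Agent.H51.EP.pf_GRE
  pf_MAIN Pool.Agent.H59.EP.TF.pf_TF hCOV (Pool.Agent.H48.EP.EXF.pf_EXF pf_UB) pf_NUM

/-- For every `c > 0` and every `N` there are `n ≥ max N 2` and a triangle-free graph on `n`
vertices in which any two sets `A`, `B` of vertices with `|A| ≥ c n` and `|B| ≥ n ^ c` have an
edge between them. -/
theorem result (c : ℝ) (hc : 0 < c) (N : ℕ) :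
    ∃ n : ℕ, N ≤ n ∧ 2 ≤ n ∧ ∃ G : SimpleGraph (Fin n), G.CliqueFree 3 ∧
      ∀ A B : Finset (Fin n), c * (n : ℝ) ≤ (A.card : ℝ) → (n : ℝ) ^ c ≤ (B.card : ℝ) →
        ∃ a ∈ A, ∃ b ∈ B, G.Adj a b :=
  final t_main c hc N

end Pool.Agent.Results.MP_e01ba1_co.NoEmptyPairs
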