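import Mathlib
import Pool.Agent.H14.EP.Main

namespace Pool.Agent.Results.MP_e01ba1_co.VectorChromatic

/-- Let `0 < η ≤ 1`. Every large enough graph `G` on `n` vertices with unit vectors `φ x` such that
`⟪φ x, φ y⟫ ≤ -η` for all edges `xy` has disjoint vertex sets `A`, `B` without edges between them,
`|A| ≥ (η / 32) n` and `|B| ≥ n ^ (η ^ 2 / 72)`. -/
theorem result (η : ℝ) (hη : 0 < η) (hη1 : η ≤ 1) :
    ∃ n₀ : ℕ, ∀ n : ℕ, n₀ ≤ n → ∀ (G : SimpleGraph (Fin n)) (E : Type) [NormedAddCommGroup E]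
      [InnerProductSpace ℝ E] (φ : Fin n → E), (∀ x, ‖φ x‖ = 1) →
      (∀ x y, G.Adj x y → inner ℝ (φ x) (φ y) ≤ -η) →
      ∃ A B : Finset (Fin n), Disjoint A B ∧ η / 32 * n ≤ A.card ∧
        (n : ℝ) ^ (η ^ 2 / 72) ≤ B.card ∧ ∀ a ∈ A, ∀ b ∈ B, ¬ G.Adj a b :=
  Pool.Agent.H14.EP.main η hη hη1

end Pool.Agent.Results.MP_e01ba1_co.VectorChromatic
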